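import Pool.Agent.N139.WS.Stm

/-!
# WS/LIM (helper143): unions of chains of finite subgroups with retractions
-/

set_option autoImplicit false

namespace Pool.Agent.N143.WS

open Filter Topology
open Pool.Agent.N139.WS

theorem diag (A : ℕ → ℕ → Prop) (h0 : ∀ n, A 0 n) (h : ∀ k, ∀ᶠ n in atTop, A k n) :
    ∃ κ : ℕ → ℕ, Tendsto κ atTop atTop ∧ ∀ n, A (κ n) n := by
  classical
  refine ⟨fun n => Nat.findGreatest (fun k => A k n) n, ?_, fun n => ?_⟩
  · rw [tendsto_atTop]
    intro K
    filter_upwards [h K, eventually_ge_atTop K] with n h1 h2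
    exact Nat.le_findGreatest h2 h1
  · exact Nat.findGreatest_spec (P := fun k => A k n) (Nat.zero_le n) (h0 n)

theorem t_LIM (h : S_FINW) : S_LIM := by
  intro G _ K r hfin hmono hex hr B _ u hu
  have hKm : Monotone K := monotone_nat_of_le_succ hmono
  -- exact representations on the finite subgroups
  have hstep : ∀ m : ℕ, ∃ w : ∀ n, K m → B n, (∀ n, Exa (w n)) ∧
      ∀ g : K m, Tendsto (fun n => ‖u n (g : G) - w n g‖) atTop (𝓝 0) := by
    intro m
    have := hfin m
    have hasy : Asy (fun n (g : K m) => u n (g : G)) :=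
      { bdd := fun g => hu.bdd (g : G)
        mul := fun g g' => hu.mul (g : G) (g' : G)
        st := fun g => hu.st (g : G) }
    exact h (K m) B (fun n (g : K m) => u n (g : G)) hasy
  choose w hw1 hw2 using hstep
  obtain ⟨κ, hκ1, hκ2⟩ := diag
    (fun k n => k = 0 ∨ ∀ g : K k, ‖u n (g : G) - w k n g‖ ≤ 1 / ((k : ℝ) + 1))
    (fun n => Or.inl rfl)
    (by
      intro k
      have := hfin k
      have hev : ∀ᶠ n in atTop, ∀ g : K k, ‖u n (g : G) - w k n g‖ ≤ 1 / ((k : ℝ) + 1) := by
        rw [Filter.eventually_all]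
        intro g
        have hpos : (0 : ℝ) < 1 / ((k : ℝ) + 1) := by positivity
        exact ((hw2 k g).eventually (gt_mem_nhds hpos)).mono (fun n hn => le_of_lt hn)
      exact hev.mono fun n hn => Or.inr hn)
  refine ⟨fun n g => w (κ n) n (r (κ n) g), fun n => ⟨fun g g' => ?_, fun g => ?_⟩, fun g => ?_⟩
  · show w (κ n) n (r (κ n) (g * g')) = w (κ n) n (r (κ n) g) * w (κ n) n (r (κ n) g')
    rw [map_mul]
    exact (hw1 (κ n) n).mul _ _
  · show w (κ n) n (r (κ n) g⁻¹) = star (w (κ n) n (r (κ n) g))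
    rw [map_inv]
    exact (hw1 (κ n) n).st _
  · obtain ⟨m, hm⟩ := hex g
    have hinv : Tendsto (fun n => 1 / ((κ n : ℝ) + 1)) atTop (𝓝 0) :=
      tendsto_one_div_add_atTop_nhds_zero_nat.comp hκ1
    refine squeeze_zero' (Eventually.of_forall fun n => norm_nonneg _) ?_ hinv
    filter_upwards [hκ1.eventually_ge_atTop (max m 1)] with n hn
    have hgk : g ∈ K (κ n) := hKm ((le_max_left _ _).trans hn) hm
    have hk0 : κ n ≠ 0 := by
      have := (le_max_right m 1).trans hn
      omega
    have hrg : r (κ n) g = ⟨g, hgk⟩ := hr (κ n) ⟨g, hgk⟩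
    rw [hrg]
    rcases hκ2 n with h0 | h1
    · exact absurd h0 hk0
    · exact h1 ⟨g, hgk⟩

end Pool.Agent.N143.WS
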